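import Pool.Agent.Lib_helper57.MinHomeo.Defs

/-!
# LAST: from the sphere to Euclidean space
-/

open Set Metric Topology Module

namespace Pool.Agent.MinHomeo

section LastSec

/-- Removing the fixed point of a homeomorphism, through a chart onto a space `E` whose source is
the complement of the fixed point. -/
private def lastHomeo {S E : Type} [TopologicalSpace S] [TopologicalSpace E]
    (e : S) (st : OpenPartialHomeomorph S E) (hsrc : st.source = {e}ᶜ) (htgt : st.target = univ)
    (f : S ≃ₜ S) (hfe : f e = e) : E ≃ₜ E where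
  toFun y := st (f (st.symm y))
  invFun y := st (f.symm (st.symm y))
  left_inv y := by
    have h1 : st.symm y ∈ st.source := st.map_target (by rw [htgt]; trivial)
    have h2 : f (st.symm y) ∈ st.source := by
      rw [hsrc] at h1 ⊢
      intro h
      apply h1
      have : f (st.symm y) = f e := by rw [hfe]; exact h
      exact f.injective this
    simp only [st.left_inv h2, f.symm_apply_apply]
    exact st.right_inv (by rw [htgt]; trivial)
  right_inv y := by
    have h1 : st.symm y ∈ st.source := st.map_target (by rw [htgt]; trivial)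
    have h2 : f.symm (st.symm y) ∈ st.source := by
      rw [hsrc] at h1 ⊢
      intro h
      apply h1
      have h3 : f.symm (st.symm y) = e := h
      have h4 : f (f.symm (st.symm y)) = f e := by rw [h3]
      rw [f.apply_symm_apply, hfe] at h4
      exact h4
    simp only [st.left_inv h2, f.apply_symm_apply]
    exact st.right_inv (by rw [htgt]; trivial)
  continuous_toFun := by
    have hc : Continuous st.symm := by
      have := st.continuousOn_symm
      rwa [htgt, continuousOn_univ] at this
    refine st.continuousOn.comp_continuous (f.continuous.comp hc) ?_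
    intro y
    have h1 : st.symm y ∈ st.source := st.map_target (by rw [htgt]; trivial)
    rw [hsrc] at h1 ⊢
    intro h
    apply h1
    have : f (st.symm y) = f e := by rw [hfe]; exact h
    exact f.injective this
  continuous_invFun := by
    have hc : Continuous st.symm := by
      have := st.continuousOn_symm
      rwa [htgt, continuousOn_univ] at this
    refine st.continuousOn.comp_continuous (f.symm.continuous.comp hc) ?_
    intro y
    have h1 : st.symm y ∈ st.source := st.map_target (by rw [htgt]; trivial)
    rw [hsrc] at h1 ⊢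
    intro h
    apply h1
    have h3 : f.symm (st.symm y) = e := h
    have h4 : f (f.symm (st.symm y)) = f e := by rw [h3]
    rw [f.apply_symm_apply, hfe] at h4
    exact h4

private lemma lastHomeo_iter {S E : Type} [TopologicalSpace S] [TopologicalSpace E]
    (e : S) (st : OpenPartialHomeomorph S E) (hsrc : st.source = {e}ᶜ) (htgt : st.target = univ)
    (f : S ≃ₜ S) (hfe : f e = e) (k : ℕ) (y : E) :
    ((lastHomeo e st hsrc htgt f hfe) ^ k) y = st ((⇑f)^[k] (st.symm y)) ∧
      (⇑f)^[k] (st.symm y) ∈ st.source := by
  induction k with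
  | zero =>
    have h1 : st.symm y ∈ st.source := st.map_target (by rw [htgt]; trivial)
    exact ⟨(st.right_inv (by rw [htgt]; trivial)).symm, h1⟩
  | succ k ih =>
    constructor
    · rw [pow_succ']
      change lastHomeo e st hsrc htgt f hfe (((lastHomeo e st hsrc htgt f hfe) ^ k) y) = _
      rw [ih.1, Function.iterate_succ_apply']
      change st (f (st.symm (st ((⇑f)^[k] (st.symm y))))) = _
      rw [st.left_inv ih.2]
    · rw [Function.iterate_succ_apply']
      have h2 := ih.2
      rw [hsrc] at h2 ⊢
      intro h
      apply h2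
      have : f ((⇑f)^[k] (st.symm y)) = f e := by rw [hfe]; exact h
      exact f.injective this

private lemma lastHomeo_dense {S E : Type} [TopologicalSpace S] [TopologicalSpace E]
    (e : S) (st : OpenPartialHomeomorph S E) (hsrc : st.source = {e}ᶜ) (htgt : st.target = univ)
    (f : S ≃ₜ S) (hfe : f e = e)
    (hf : ∀ x, x ≠ e → ∀ U : Set S, IsOpen U → U.Nonempty →
        ∃ k : ℕ, (⇑f)^[k] x ∈ U ∨ (⇑f.symm)^[k] x ∈ U) (y : E) :
    Dense (range fun k : ℤ => ((lastHomeo e st hsrc htgt f hfe) ^ k) y) := by
  have hfe' : f.symm e = e := by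
    have := congrArg f.symm hfe
    rw [f.symm_apply_apply] at this
    exact this.symm
  have hinv : (lastHomeo e st hsrc htgt f hfe)⁻¹ = lastHomeo e st hsrc htgt f.symm hfe' := by
    ext y
    rfl
  rw [dense_iff_inter_open]
  intro V hV hVne
  set U : Set S := st.source ∩ st ⁻¹' V with hU
  have hUo : IsOpen U := st.isOpen_inter_preimage hV
  have hUne : U.Nonempty := by
    obtain ⟨v, hv⟩ := hVne
    have hvt : v ∈ st.target := by rw [htgt]; trivial
    refine ⟨st.symm v, st.map_target hvt, ?_⟩
    rw [mem_preimage, st.right_inv hvt]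
    exact hv
  have h1 : st.symm y ∈ st.source := st.map_target (by rw [htgt]; trivial)
  have hne : st.symm y ≠ e := by
    rw [hsrc] at h1; exact h1
  obtain ⟨k, hk | hk⟩ := hf (st.symm y) hne U hUo hUne
  · refine ⟨_, ?_, ⟨(k : ℤ), rfl⟩⟩
    change ((lastHomeo e st hsrc htgt f hfe) ^ ((k : ℕ) : ℤ)) y ∈ V
    rw [zpow_natCast, (lastHomeo_iter e st hsrc htgt f hfe k y).1]
    exact hk.2
  · refine ⟨_, ?_, ⟨-(k : ℤ), rfl⟩⟩
    change ((lastHomeo e st hsrc htgt f hfe) ^ (-((k : ℕ) : ℤ))) y ∈ V
    rw [zpow_neg, zpow_natCast, ← inv_pow, hinv,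
      (lastHomeo_iter e st hsrc htgt f.symm hfe' k y).1]
    exact hk.2

/-- LAST: a homeomorphism of the sphere `S^(2m+1)` which fixes one point and all of whose other
full orbits are dense gives a homeomorphism of `ℝ^(2m+1)` all of whose full orbits are dense. -/
theorem last : Last_Stmt := by
  rintro m - ⟨e, f, hfe, hf⟩
  let _ : InnerProductSpace ℝ (Amb (EuclideanSpace ℂ (Fin m))) := InnerProductSpace.complexToReal
  have hdim : finrank ℝ (Amb (EuclideanSpace ℂ (Fin m))) = (2 * m + 1) + 1 := by
    have h1 : finrank ℂ (Amb (EuclideanSpace ℂ (Fin m))) = 1 + m := by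
      rw [LinearEquiv.finrank_eq (WithLp.linearEquiv 2 ℂ (ℂ × EuclideanSpace ℂ (Fin m))),
        Module.finrank_prod, finrank_euclideanSpace_fin, Module.finrank_self]
    have h2 : finrank ℝ (Amb (EuclideanSpace ℂ (Fin m))) =
        2 * finrank ℂ (Amb (EuclideanSpace ℂ (Fin m))) := finrank_real_of_complex _
    rw [h2, h1]; ring
  have _ : Fact (finrank ℝ (Amb (EuclideanSpace ℂ (Fin m))) = (2 * m + 1) + 1) := ⟨hdim⟩
  refine ⟨lastHomeo e (stereographic' (2 * m + 1) e) (stereographic'_source e)
    (stereographic'_target e) f hfe, fun y => ?_⟩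
  exact lastHomeo_dense e _ _ _ f hfe hf y

end LastSec

end Pool.Agent.MinHomeo
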