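import Pool.Agent.Lib_helper57.MinHomeo.Defs

/-!
# PATH: lifting connectedness to `X × ℝ`
-/

open Set Metric Topology

namespace Pool.Agent.MinHomeo

section PathSec

variable {X M : Type} [NormedAddCommGroup X] [NormedSpace ℝ X] [MetricSpace M]

private lemma path_Phi_int (C : RotChart X M) (y : X × ℝ) (k : ℤ) :
    C.Φ (y + (0, (k : ℝ))) = C.Φ y := by
  obtain ⟨x, θ⟩ := y
  have h := (C.Φ_eq x θ x (θ + k)).2 ⟨rfl, k, rfl⟩
  rw [h]
  congr 1
  ext <;> simp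

private lemma path_mem_trans (C : RotChart X M) (O : Set M) (y : X × ℝ) (k : ℤ) :
    y + (0, (k : ℝ)) ∈ C.Φ ⁻¹' O ↔ y ∈ C.Φ ⁻¹' O := by
  simp only [mem_preimage]
  rw [path_Phi_int C y k]

private lemma path_joined_trans (C : RotChart X M) (O : Set M) {y z : X × ℝ} (k : ℤ)
    (h : JoinedIn (C.Φ ⁻¹' O) y z) :
    JoinedIn (C.Φ ⁻¹' O) (y + (0, (k : ℝ))) (z + (0, (k : ℝ))) := by
  have h1 : JoinedIn ((fun w : X × ℝ => w + (0, (k : ℝ))) '' (C.Φ ⁻¹' O))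
      (y + (0, (k : ℝ))) (z + (0, (k : ℝ))) :=
    h.map_continuousOn (f := fun w : X × ℝ => w + (0, (k : ℝ))) (by fun_prop)
  refine h1.mono ?_
  rintro _ ⟨w, hw, rfl⟩
  exact (path_mem_trans C O w k).2 hw

/-- PATH: two points on the central circle in an open preconnected set can be joined by a path
upstairs, up to an integer translation. -/
theorem path (C : RotChart X M) : Path_Stmt C := by
  intro O α hO hOc h0 hα
  set P : Set (X × ℝ) := C.Φ ⁻¹' O with hP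
  have hPo : IsOpen P := hO.preimage C.Φ_cont
  set Q : Set (X × ℝ) := pathComponentIn P ((0 : X), (0 : ℝ)) with hQ
  have hQo : IsOpen Q := hPo.pathComponentIn _
  set A : Set (X × ℝ) := {y | ∃ k : ℤ, y + (0, (k : ℝ)) ∈ Q} with hA
  have hAo : IsOpen A := by
    have : A = ⋃ k : ℤ, (fun y : X × ℝ => y + (0, (k : ℝ))) ⁻¹' Q := by
      ext y; simp [hA]
    rw [this]
    exact isOpen_iUnion fun k => hQo.preimage (by fun_prop)
  have hAinv : ∀ (y : X × ℝ) (k : ℤ), y + (0, (k : ℝ)) ∈ A ↔ y ∈ A := by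
    intro y k
    constructor
    · rintro ⟨j, hj⟩
      refine ⟨k + j, ?_⟩
      have : y + (0, (((k + j : ℤ)) : ℝ)) = y + (0, (k : ℝ)) + (0, (j : ℝ)) := by
        ext <;> simp [add_assoc]
      rw [this]; exact hj
    · rintro ⟨j, hj⟩
      refine ⟨j - k, ?_⟩
      have : y + (0, (k : ℝ)) + (0, ((j - k : ℤ) : ℝ)) = y + (0, (j : ℝ)) := by
        ext <;> simp
      rw [this]; exact hj
  have hAP : A ⊆ P := by
    rintro y ⟨k, hk⟩
    exact (path_mem_trans C O y k).1 (pathComponentIn_subset hk)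
  have hBo : IsOpen (P \ A) := by
    rw [isOpen_iff_mem_nhds]
    rintro y ⟨hyP, hyA⟩
    have hQy : IsOpen (pathComponentIn P y) := hPo.pathComponentIn _
    refine Filter.mem_of_superset (hQy.mem_nhds (mem_pathComponentIn_self hyP)) ?_
    intro z hz
    refine ⟨pathComponentIn_subset hz, ?_⟩
    rintro ⟨k, hk⟩
    apply hyA
    refine ⟨k, ?_⟩
    have h1 : JoinedIn P (y + (0, (k : ℝ))) (z + (0, (k : ℝ))) :=
      path_joined_trans C O k hz
    exact JoinedIn.trans hk h1.symm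
  -- the images
  have hdisj : Disjoint (C.Φ '' A) (C.Φ '' (P \ A)) := by
    rw [Set.disjoint_left]
    rintro _ ⟨y, hy, rfl⟩ ⟨z, hz, hzy⟩
    obtain ⟨x, θ⟩ := y
    obtain ⟨x', θ'⟩ := z
    obtain ⟨hx, k, hk⟩ := (C.Φ_eq x' θ' x θ).1 hzy
    apply hz.2
    subst hx
    have : ((x', θ) : X × ℝ) = (x', θ') + (0, (k : ℝ)) := by
      ext <;> simp [hk]
    rw [this] at hy
    exact (hAinv _ k).1 hy
  have hcover : O ∩ range C.Φ ⊆ C.Φ '' A ∪ C.Φ '' (P \ A) := by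
    rintro _ ⟨hm, y, rfl⟩
    by_cases hy : y ∈ A
    · exact Or.inl ⟨y, hy, rfl⟩
    · exact Or.inr ⟨y, ⟨hm, hy⟩, rfl⟩
  have h0P : ((0 : X), (0 : ℝ)) ∈ P := h0
  have h0A : ((0 : X), (0 : ℝ)) ∈ A := by
    refine ⟨0, ?_⟩
    simpa using mem_pathComponentIn_self h0P
  have hαA : ((0 : X), α) ∈ A := by
    by_contra hcon
    have hne1 : ((O ∩ range C.Φ) ∩ C.Φ '' A).Nonempty :=
      ⟨C.Φ (0, 0), ⟨h0, mem_range_self _⟩, mem_image_of_mem _ h0A⟩
    have hne2 : ((O ∩ range C.Φ) ∩ C.Φ '' (P \ A)).Nonempty :=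
      ⟨C.Φ (0, α), ⟨hα, mem_range_self _⟩, mem_image_of_mem _ ⟨hα, hcon⟩⟩
    obtain ⟨m, _, hm1, hm2⟩ := (C.conn O hO hOc) _ _ (C.Φ_open _ hAo) (C.Φ_open _ hBo) hcover
      hne1 hne2
    exact Set.disjoint_left.1 hdisj hm1 hm2
  obtain ⟨k, hk⟩ := hαA
  refine ⟨k, ?_⟩
  have h2 : JoinedIn P ((0 : X), (0 : ℝ)) (((0 : X), α) + (0, (k : ℝ))) := hk
  simpa using h2

end PathSec

end Pool.Agent.MinHomeo
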